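import Mathlib
import Pool.Agent.Lib.MP_307af1_al.Chain

/-! If all commutators have order dividing five, every element of the derived subgroup has
order dividing `2^j * 75` for some `j`, and the two-subgroups of the derived subgroup are finite,
then the derived subgroup has exponent dividing 25. -/

namespace Pool.Agent.Lib.MP_307af1_al.Old.FiniteTwo

theorem result (G : Type*) [Group G] (h : ∀ x y : G, (x * y * x⁻¹ * y⁻¹) ^ 5 = 1)
    (hord : ∀ u ∈ commutator G, ∃ j : ℕ, u ^ (2 ^ j * 75) = 1)
    (hfin : ∀ T : Subgroup G, T ≤ commutator G → IsPGroup 2 T → Finite T) :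
    ∀ g ∈ commutator G, g ^ 25 = 1 :=
  Pool.Agent.Lib.MP_307af1_al.exp25_of_finite_two h hord hfin

end Pool.Agent.Lib.MP_307af1_al.Old.FiniteTwo
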