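import Mathlib
import Pool.Agent.Lib.MP_307af1_al.Core

/-! If all commutators have order dividing five and every element of the derived subgroup has
order dividing 50 or 75 modulo the centre, then the derived subgroup is a five-group. -/

namespace Pool.Agent.Lib.MP_307af1_al.Old.OrdersAll

theorem result (G : Type*) [Group G] (h : ∀ x y : G, (x * y * x⁻¹ * y⁻¹) ^ 5 = 1)
    (hu : ∀ u ∈ commutator G, u ^ 50 ∈ Subgroup.center G ∨ u ^ 75 ∈ Subgroup.center G) :
    ∀ g ∈ commutator G, ∃ n : ℕ, g ^ (5 ^ n) = 1 :=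
  fun g hg => (Pool.Agent.Lib.MP_307af1_al.five_of_mod_center h hu g hg).2

end Pool.Agent.Lib.MP_307af1_al.Old.OrdersAll
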